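import Mathlib

/-!
# Finite commutative associative rings without finite bases of quasi-identities

For every odd prime number `p` the ring `R` of order `p²` with additive generators `x`, `x²` and
with `x³ = 0` (it is commutative, associative and nilpotent) has no finite basis of quasi-identities.

Proof. Let `L` be a field of order `p^m`, `U` the dual space of `L` over `𝔽_p` and `N` the space
of the symmetric bilinear forms on `U` (i.e. symmetric tensors in `L ⊗ L`) which are in the kernel
of the multiplication `L ⊗ L → L`. Let `A = U ⊕ N*` with `u · u' = (β ↦ β(u,u'))` and `N*`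
annihilating `A`. A homomorphism `A → R` is given on `U` by some `c ∈ L` with `c ⊗ c ∈ N`, so
`c² = 0` and `c = 0`. So every homomorphism `A → R` kills `A²`, and the diagram of `A` gives a
quasi-identity of `R` which does not hold in `A`. Now let `e ∈ L` be nonzero and
`A_e = {(u,v) : u(e) = 0}`, a subring of `A`. For all `c` the form
`c ⊗ c + e ⊗ g + g ⊗ e`, `g = -c²/(2e)`, lies in `N` and gives a homomorphism `A_e → R`; these
homomorphisms and the functionals vanishing on `A_e²` separate the points of `A_e`. So all the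
quasi-identities of `R` hold in `A_e`. Any `n < m` elements of `A` lie in one of the subrings `A_e`,
so every quasi-identity of `R` in at most `n` variables holds in `A`.
-/

set_option autoImplicit false

namespace Pool.Agent.Results.MP_db5ef1_al.NoFiniteBasis

/-! ### Quasi-identities -/

/-- Terms in the signature `{+, -, 0, ·}` of rings in the variables `x₀, x₁, x₂, …`. -/
inductive Term : Type
  | var (i : ℕ) : Term
  | zero : Term
  | neg (s : Term) : Term
  | add (s t : Term) : Term
  | mul (s t : Term) : Term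

/-- The value of a term in the (not necessarily associative) ring `A` when the variable `xᵢ` is
given the value `v i`. -/
def Term.eval {A : Type*} [NonUnitalNonAssocRing A] (v : ℕ → A) : Term → A
  | .var i => v i
  | .zero => 0
  | .neg s => -(s.eval v)
  | .add s t => s.eval v + t.eval v
  | .mul s t => s.eval v * t.eval v

/-- A quasi-identity `∀ x̄ (s₁ = t₁ ∧ … ∧ sₙ = tₙ → lhs = rhs)`; the list `hyps` consists of the
pairs `(sᵢ, tᵢ)` and may be empty. -/
structure QuasiIdentity where
  hyps : List (Term × Term)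
  lhs : Term
  rhs : Term

/-- The quasi-identity `q` is true in the ring `A`. -/
def QuasiIdentity.Holds (q : QuasiIdentity) (A : Type*) [NonUnitalNonAssocRing A] : Prop :=
  ∀ v : ℕ → A, (∀ h ∈ q.hyps, h.1.eval v = h.2.eval v) → q.lhs.eval v = q.rhs.eval v

/-- `S` is a basis of quasi-identities of the ring `A`: the quasi-identities in `S` are true in `A`,
and every quasi-identity which is true in `A` is true in every ring in which all the
quasi-identities in `S` are true. -/
def IsBasisOfQuasiIdentities (S : Set QuasiIdentity) (A : Type*) [NonUnitalNonAssocRing A] : Prop :=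
  (∀ s ∈ S, s.Holds A) ∧
    ∀ q : QuasiIdentity, q.Holds A →
      ∀ (B : Type) [NonUnitalNonAssocRing B], (∀ s ∈ S, s.Holds B) → q.Holds B

/-- The ring `A` has a finite basis of quasi-identities. -/
def HasFiniteBasis (A : Type*) [NonUnitalNonAssocRing A] : Prop :=
  ∃ S : Set QuasiIdentity, S.Finite ∧ IsBasisOfQuasiIdentities S A

/-- A bound for the variables of a term. -/
def Term.bound : Term → ℕ
  | .var i => i + 1
  | .zero => 0
  | .neg s => s.bound
  | .add s t => max s.bound t.bound
  | .mul s t => max s.bound t.bound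

theorem Term.eval_congr {A : Type*} [NonUnitalNonAssocRing A] {v w : ℕ → A} {n : ℕ}
    (h : ∀ i < n, v i = w i) (s : Term) (hs : s.bound ≤ n) : s.eval v = s.eval w := by
  induction s with
  | var i => exact h i hs
  | zero => rfl
  | neg s ih => exact congrArg Neg.neg (ih hs)
  | add s t ih1 ih2 =>
    exact congrArg₂ (· + ·) (ih1 ((le_max_left _ _).trans hs)) (ih2 ((le_max_right _ _).trans hs))
  | mul s t ih1 ih2 =>
    exact congrArg₂ (· * ·) (ih1 ((le_max_left _ _).trans hs)) (ih2 ((le_max_right _ _).trans hs))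

/-- All the variables of `q` are among `x₀, …, x_{n-1}`. -/
def QuasiIdentity.Below (q : QuasiIdentity) (n : ℕ) : Prop :=
  (∀ h ∈ q.hyps, h.1.bound ≤ n ∧ h.2.bound ≤ n) ∧ q.lhs.bound ≤ n ∧ q.rhs.bound ≤ n

theorem QuasiIdentity.Below.mono {q : QuasiIdentity} {n m : ℕ} (h : q.Below n) (hnm : n ≤ m) :
    q.Below m :=
  ⟨fun x hx => ⟨(h.1 x hx).1.trans hnm, (h.1 x hx).2.trans hnm⟩, h.2.1.trans hnm, h.2.2.trans hnm⟩

theorem list_below (l : List (Term × Term)) :
    ∃ n, ∀ h ∈ l, h.1.bound ≤ n ∧ h.2.bound ≤ n := by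
  induction l with
  | nil => exact ⟨0, by simp⟩
  | cons a l ih =>
    obtain ⟨n, hn⟩ := ih
    refine ⟨max n (max a.1.bound a.2.bound), ?_⟩
    intro h hh
    rcases List.mem_cons.1 hh with rfl | hh
    · exact ⟨(le_max_left _ _).trans (le_max_right _ _), (le_max_right _ _).trans (le_max_right _ _)⟩
    · exact ⟨(hn h hh).1.trans (le_max_left _ _), (hn h hh).2.trans (le_max_left _ _)⟩

theorem QuasiIdentity.exists_below (q : QuasiIdentity) : ∃ n, q.Below n := by
  obtain ⟨n, hn⟩ := list_below q.hyps
  refine ⟨max n (max q.lhs.bound q.rhs.bound), ?_, ?_, ?_⟩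
  · intro h hh
    exact ⟨(hn h hh).1.trans (le_max_left _ _), (hn h hh).2.trans (le_max_left _ _)⟩
  · exact (le_max_left _ _).trans (le_max_right _ _)
  · exact (le_max_right _ _).trans (le_max_right _ _)

theorem exists_below {S : Set QuasiIdentity} (hS : S.Finite) : ∃ n, ∀ q ∈ S, q.Below n := by
  induction S, hS using Set.Finite.induction_on with
  | empty => exact ⟨0, by simp⟩
  | insert _ _ ih =>
    rename_i a s _ _
    obtain ⟨n, hn⟩ := ih
    obtain ⟨k, hk⟩ := a.exists_below
    refine ⟨max n k, fun q hq => ?_⟩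
    rcases Set.mem_insert_iff.1 hq with rfl | hq
    · exact hk.mono (le_max_right _ _)
    · exact (hn q hq).mono (le_max_left _ _)

/-- Let every `n` elements of `A` lie in a subring whose points are separated by homomorphisms to
`R`. Then the quasi-identities of `R` in `n` variables hold in `A`. -/
theorem holds_of_separated {R A : Type*} [NonUnitalNonAssocRing R] [NonUnitalNonAssocRing A]
    {q : QuasiIdentity} {n : ℕ} (hq : q.Below n) (hR : q.Holds R)
    (hA : ∀ v : ℕ → A, ∃ B : NonUnitalSubring A, (∀ i < n, v i ∈ B) ∧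
      ∀ x ∈ B, x ≠ 0 → ∃ f : A →+ R, (∀ y ∈ B, ∀ z ∈ B, f (y * z) = f y * f z) ∧ f x ≠ 0) :
    q.Holds A := by
  intro v hv
  by_contra hne
  obtain ⟨B, hB, hsep⟩ := hA v
  let w : ℕ → A := fun i => if i < n then v i else 0
  have hvw : ∀ i < n, v i = w i := fun i hi => by simp [w, hi]
  have hw : ∀ i, w i ∈ B := by
    intro i
    by_cases hi : i < n
    · simpa [w, hi] using hB i hi
    · simp [w, hi, B.zero_mem]
  have hev : ∀ s : Term, s.eval w ∈ B := by
    intro s
    induction s with
    | var i => exact hw i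
    | zero => exact B.zero_mem
    | neg s ih => exact B.neg_mem ih
    | add s t ih1 ih2 => exact B.add_mem ih1 ih2
    | mul s t ih1 ih2 => exact B.mul_mem ih1 ih2
  have h1 : q.lhs.eval w - q.rhs.eval w ≠ 0 := by
    rw [sub_ne_zero, ← Term.eval_congr hvw _ hq.2.1, ← Term.eval_congr hvw _ hq.2.2]
    exact hne
  obtain ⟨f, hf, hfne⟩ := hsep _ (B.sub_mem (hev _) (hev _)) h1
  have hfev : ∀ s : Term, s.eval (fun i => f (w i)) = f (s.eval w) := by
    intro s
    induction s with
    | var i => rfl
    | zero => exact (map_zero f).symm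
    | neg s ih =>
      show -(s.eval fun i => f (w i)) = f (-(s.eval w))
      rw [ih, map_neg]
    | add s t ih1 ih2 =>
      show (s.eval fun i => f (w i)) + (t.eval fun i => f (w i)) = f (s.eval w + t.eval w)
      rw [ih1, ih2, map_add]
    | mul s t ih1 ih2 =>
      show (s.eval fun i => f (w i)) * (t.eval fun i => f (w i)) = f (s.eval w * t.eval w)
      rw [ih1, ih2, hf _ (hev s) _ (hev t)]
  apply hfne
  rw [map_sub, sub_eq_zero, ← hfev, ← hfev]
  refine hR _ fun h hh => ?_
  rw [hfev, hfev]
  congr 1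
  rw [← Term.eval_congr hvw _ (hq.1 h hh).1, ← Term.eval_congr hvw _ (hq.1 h hh).2]
  exact hv h hh

/-- If every homomorphism from the finite ring `A` to `R` kills `d ≠ 0` then some quasi-identity
holds in `R` but not in `A`. -/
theorem exists_quasiIdentity {R A : Type*} [NonUnitalNonAssocRing R] [NonUnitalNonAssocRing A]
    [Finite A] {d : A} (hd : d ≠ 0)
    (h : ∀ f : A → R, (∀ x y, f (x + y) = f x + f y) → (∀ x y, f (x * y) = f x * f y) → f d = 0) :
    ∃ q : QuasiIdentity, q.Holds R ∧ ¬ q.Holds A := by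
  classical
  have := Fintype.ofFinite A
  let idx : A → ℕ := fun a => (Fintype.equivFin A a : ℕ)
  let back : ℕ → A := fun i =>
    if hi : i < Fintype.card A then (Fintype.equivFin A).symm ⟨i, hi⟩ else 0
  have hback : ∀ a, back (idx a) = a := by
    intro a
    have h1 : idx a < Fintype.card A := (Fintype.equivFin A a).2
    simp only [back, h1, dif_pos]
    simp [idx]
  let l : List (Term × Term) := (Finset.univ : Finset (A × A)).toList.flatMap fun x =>
    [(Term.add (.var (idx x.1)) (.var (idx x.2)), Term.var (idx (x.1 + x.2))),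
      (Term.mul (.var (idx x.1)) (.var (idx x.2)), Term.var (idx (x.1 * x.2)))]
  refine ⟨⟨l, .var (idx d), .zero⟩, ?_, ?_⟩
  · intro v hv
    refine h (fun a => v (idx a)) ?_ ?_
    · intro x y
      refine (hv (Term.add (.var (idx x)) (.var (idx y)), Term.var (idx (x + y))) ?_).symm
      simp only [l, List.mem_flatMap]
      exact ⟨(x, y), by simp, by simp⟩
    · intro x y
      refine (hv (Term.mul (.var (idx x)) (.var (idx y)), Term.var (idx (x * y))) ?_).symm
      simp only [l, List.mem_flatMap]
      exact ⟨(x, y), by simp, by simp⟩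
  · intro hA
    have h1 := hA back ?_
    · apply hd
      have h2 : back (idx d) = 0 := h1
      rwa [hback] at h2
    · intro e he
      simp only [l, List.mem_flatMap] at he
      obtain ⟨x, -, hx⟩ := he
      simp only [List.mem_cons, List.not_mem_nil, or_false] at hx
      rcases hx with rfl | rfl
      · show back (idx x.1) + back (idx x.2) = back (idx (x.1 + x.2))
        rw [hback, hback, hback]
      · show back (idx x.1) * back (idx x.2) = back (idx (x.1 * x.2))
        rw [hback, hback, hback]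

/-! ### The rings -/

section Ext

variable {k U V : Type} [Field k] [AddCommGroup U] [AddCommGroup V] [Module k U] [Module k V]

/-- The ring `U ⊕ V` with the product `(u,v)(u',v') = (0, B u u')`. -/
def Ext (_ : U →ₗ[k] U →ₗ[k] V) : Type := U × V

variable (B : U →ₗ[k] U →ₗ[k] V)

instance : AddCommGroup (Ext B) := inferInstanceAs (AddCommGroup (U × V))

instance : Mul (Ext B) := ⟨fun x y => (0, B x.1 y.1)⟩

theorem mul_def (x y : Ext B) : x * y = ((0, B x.1 y.1) : U × V) := rfl

instance : NonUnitalNonAssocRing (Ext B) :=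
  { (inferInstance : AddCommGroup (Ext B)), (inferInstance : Mul (Ext B)) with
    left_distrib := fun x y z => by
      refine Prod.ext (add_zero (0 : U)).symm ?_
      show B x.1 (y.1 + z.1) = B x.1 y.1 + B x.1 z.1
      rw [map_add]
    right_distrib := fun x y z => by
      refine Prod.ext (add_zero (0 : U)).symm ?_
      show B (x.1 + y.1) z.1 = B x.1 z.1 + B y.1 z.1
      rw [map_add, LinearMap.add_apply]
    zero_mul := fun x => by
      refine Prod.ext rfl ?_
      show B 0 x.1 = 0
      rw [map_zero, LinearMap.zero_apply]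
    mul_zero := fun x => by
      refine Prod.ext rfl ?_
      show B x.1 0 = 0
      rw [map_zero] }

instance [Finite U] [Finite V] : Finite (Ext B) := inferInstanceAs (Finite (U × V))

end Ext

/-- The ring with elements `a x + b x²`, `a, b ∈ 𝔽_p`, and `x³ = 0`. -/
abbrev Rp (p : ℕ) [Fact p.Prime] : Type := Ext (LinearMap.mul (ZMod p) (ZMod p))

section Main

variable (p : ℕ) [Fact p.Prime] (L : Type) [Field L] [Algebra (ZMod p) L]
  [FiniteDimensional (ZMod p) L]

/-- The dual space of `L`. -/
abbrev Dl : Type := Module.Dual (ZMod p) L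

/-- The bilinear forms on the dual space of `L`. -/
def BF : Type := Dl p L →ₗ[ZMod p] Dl p L →ₗ[ZMod p] ZMod p

noncomputable instance : AddCommGroup (BF p L) :=
  inferInstanceAs (AddCommGroup (Dl p L →ₗ[ZMod p] Dl p L →ₗ[ZMod p] ZMod p))

noncomputable instance : Module (ZMod p) (BF p L) :=
  inferInstanceAs (Module (ZMod p) (Dl p L →ₗ[ZMod p] Dl p L →ₗ[ZMod p] ZMod p))

instance : Module.Finite (ZMod p) (BF p L) :=
  inferInstanceAs (Module.Finite (ZMod p) (Dl p L →ₗ[ZMod p] Dl p L →ₗ[ZMod p] ZMod p))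

/-- The bilinear map given by an element of `BF`. -/
noncomputable def ap : BF p L ≃ₗ[ZMod p] (Dl p L →ₗ[ZMod p] Dl p L →ₗ[ZMod p] ZMod p) :=
  LinearEquiv.refl _ _

/-- The basis of `L`. -/
noncomputable abbrev bs : Module.Basis (Fin (Module.finrank (ZMod p) L)) (ZMod p) L :=
  Module.finBasis (ZMod p) L

/-- The multiplication map `L ⊗ L → L`. -/
noncomputable def mult : BF p L →ₗ[ZMod p] L where
  toFun β := ∑ i, ∑ j, ap p L β ((bs p L).coord i) ((bs p L).coord j) • (bs p L i * bs p L j)
  map_add' β γ := by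
    simp only [map_add, LinearMap.add_apply, add_smul, Finset.sum_add_distrib]
  map_smul' c β := by
    simp only [map_smul, LinearMap.smul_apply, smul_eq_mul, mul_smul, Finset.smul_sum,
      RingHom.id_apply]

/-- The symmetric elements of the kernel of the multiplication. -/
noncomputable def NN : Submodule (ZMod p) (BF p L) where
  carrier := {β | (∀ u w, ap p L β u w = ap p L β w u) ∧ mult p L β = 0}
  add_mem' := by
    rintro β γ ⟨h1, h2⟩ ⟨h3, h4⟩
    refine ⟨fun u w => ?_, ?_⟩
    · simp only [map_add, LinearMap.add_apply, h1 u w, h3 u w]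
    · rw [map_add, h2, h4, add_zero]
  zero_mem' := ⟨fun _ _ => rfl, map_zero _⟩
  smul_mem' := by
    rintro c β ⟨h1, h2⟩
    refine ⟨fun u w => ?_, ?_⟩
    · simp only [map_smul, LinearMap.smul_apply, h1 u w]
    · rw [map_smul, h2, smul_zero]

/-- The product `U × U → N*`. -/
noncomputable def pr : Dl p L →ₗ[ZMod p] Dl p L →ₗ[ZMod p] Module.Dual (ZMod p) (NN p L) :=
  LinearMap.mk₂ (ZMod p)
    (fun u w =>
      { toFun := fun β => ap p L β.1 u w
        map_add' := fun _ _ => rfl
        map_smul' := fun _ _ => rfl })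
    (fun u u' w => by
      ext β
      exact LinearMap.congr_fun (map_add (ap p L β.1) u u') w)
    (fun c u w => by
      ext β
      exact LinearMap.congr_fun (map_smul (ap p L β.1) c u) w)
    (fun u w w' => by
      ext β
      exact map_add (ap p L β.1 u) w w')
    (fun c u w => by
      ext β
      exact map_smul (ap p L β.1 u) c w)

theorem pr_apply (u w : Dl p L) (β : NN p L) : pr p L u w β = ap p L β.1 u w := rfl

/-- The tensor `c ⊗ d`. -/
noncomputable def tt (c d : L) : BF p L :=
  (ap p L).symm (LinearMap.mk₂ (ZMod p) (fun u w => u c * w d)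
    (fun u u' w => by simp [add_mul]) (fun a u w => by simp [mul_assoc])
    (fun u w w' => by simp [mul_add]) (fun a u w => by simp [mul_left_comm]))

omit [FiniteDimensional (ZMod p) L] in
theorem tt_apply (c d : L) (u w : Dl p L) : ap p L (tt p L c d) u w = u c * w d := rfl

theorem mult_tt (c d : L) : mult p L (tt p L c d) = c * d := by
  have hc := (bs p L).sum_repr c
  have hd := (bs p L).sum_repr d
  conv_rhs => rw [← hc, ← hd]
  rw [Finset.sum_mul_sum]
  show ∑ i, ∑ j, ap p L (tt p L c d) ((bs p L).coord i) ((bs p L).coord j) •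
    (bs p L i * bs p L j) = _
  refine Finset.sum_congr rfl fun i _ => Finset.sum_congr rfl fun j _ => ?_
  rw [tt_apply, smul_mul_smul_comm]
  rfl

/-- The form `c ⊗ c + e ⊗ g + g ⊗ e` with `g = -c²/(2e)`. -/
noncomputable def bc (e c : L) : BF p L :=
  tt p L c c + tt p L e (-(c * c) / (2 * e)) + tt p L (-(c * c) / (2 * e)) e

theorem bc_mem (hp : p ≠ 2) {e : L} (he : e ≠ 0) (c : L) : bc p L e c ∈ NN p L := by
  have h2 : (2 : L) ≠ 0 := by
    have h1 : (2 : ZMod p) ≠ 0 := by
      intro h
      have h3 : ((2 : ℕ) : ZMod p) = 0 := by exact_mod_cast h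
      rw [ZMod.natCast_eq_zero_iff] at h3
      exact hp ((Nat.prime_dvd_prime_iff_eq Fact.out Nat.prime_two).1 h3)
    intro h
    apply h1
    apply (algebraMap (ZMod p) L).injective
    rw [map_ofNat, map_zero, h]
  refine ⟨fun u w => ?_, ?_⟩
  · simp only [bc, map_add, LinearMap.add_apply, tt_apply]
    ring
  · rw [bc, map_add, map_add, mult_tt, mult_tt, mult_tt]
    field_simp
    ring

omit [FiniteDimensional (ZMod p) L] in
theorem bc_apply {e : L} (c : L) {u w : Dl p L} (hu : u e = 0) (hw : w e = 0) :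
    ap p L (bc p L e c) u w = u c * w c := by
  simp only [bc, map_add, LinearMap.add_apply, tt_apply, hu, hw, zero_mul, mul_zero, add_zero]

/-- The ring `A`. -/
abbrev AA : Type := Ext (pr p L)

/-- The subring `A_e`. -/
def Ae (e : L) : NonUnitalSubring (AA p L) where
  carrier := {x | x.1 e = 0}
  add_mem' := by
    intro x y hx hy
    show x.1 e + y.1 e = 0
    rw [show x.1 e = 0 from hx, show y.1 e = 0 from hy, add_zero]
  zero_mem' := rfl
  neg_mem' := by
    intro x hx
    show -(x.1 e) = 0
    rw [show x.1 e = 0 from hx, neg_zero]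
  mul_mem' := by
    intro x y _ _
    rfl

/-- The span of the products in `A_e`. -/
noncomputable def SS (e : L) : Submodule (ZMod p) (Module.Dual (ZMod p) (NN p L)) :=
  Submodule.span (ZMod p) {v | ∃ u w : Dl p L, u e = 0 ∧ w e = 0 ∧ v = pr p L u w}

theorem expand (β : BF p L) :
    β = ∑ i, ∑ j, ap p L β ((bs p L).coord i) ((bs p L).coord j) •
      tt p L (bs p L i) (bs p L j) := by
  apply (ap p L).injective
  refine LinearMap.ext fun u => LinearMap.ext fun w => ?_
  have hu := (bs p L).sum_dual_apply_smul_coord u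
  have hw := (bs p L).sum_dual_apply_smul_coord w
  conv_lhs => rw [← hu, ← hw]
  simp only [LinearMap.sum_apply, LinearMap.smul_apply, map_sum, map_smul, tt_apply, smul_eq_mul,
    Finset.mul_sum]
  rw [Finset.sum_comm]
  refine Finset.sum_congr rfl fun i _ => Finset.sum_congr rfl fun j _ => ?_
  ring

theorem eq_zero_of_mem_SS (hp : p ≠ 2) {e : L} (he : e ≠ 0)
    {v : Module.Dual (ZMod p) (NN p L)} (hv : v ∈ SS p L e)
    (h : ∀ c, v ⟨bc p L e c, bc_mem p L hp he c⟩ = 0) : v = 0 := by
  have hD : ∃ D : Module.Dual (ZMod p) (BF p L), (∀ β : NN p L, v β = D β.1) ∧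
      ∀ c, v ⟨bc p L e c, bc_mem p L hp he c⟩ = D (tt p L c c) := by
    clear h
    induction hv using Submodule.span_induction with
    | mem v hv =>
      obtain ⟨u, w, hu, hw, rfl⟩ := hv
      refine ⟨{ toFun := fun β => ap p L β u w
                map_add' := fun _ _ => rfl
                map_smul' := fun _ _ => rfl }, fun β => rfl, fun c => ?_⟩
      exact bc_apply p L c hu hw
    | zero => exact ⟨0, fun _ => rfl, fun _ => rfl⟩
    | add v v' _ _ ih ih' =>
      obtain ⟨D, h1, h2⟩ := ih
      obtain ⟨D', h1', h2'⟩ := ih'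
      refine ⟨D + D', fun β => ?_, fun c => ?_⟩
      · rw [LinearMap.add_apply, LinearMap.add_apply, h1, h1']
      · rw [LinearMap.add_apply, LinearMap.add_apply, h2, h2']
    | smul a v _ ih =>
      obtain ⟨D, h1, h2⟩ := ih
      refine ⟨a • D, fun β => ?_, fun c => ?_⟩
      · rw [LinearMap.smul_apply, LinearMap.smul_apply, h1]
      · rw [LinearMap.smul_apply, LinearMap.smul_apply, h2]
  obtain ⟨D, h1, h2⟩ := hD
  have h3 : ∀ c, D (tt p L c c) = 0 := fun c => (h2 c).symm.trans (h c)
  have h4 : ∀ c d, D (tt p L c d) + D (tt p L d c) = 0 := by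
    intro c d
    have e1 : tt p L (c + d) (c + d) = tt p L c c + tt p L d d + (tt p L c d + tt p L d c) := by
      apply (ap p L).injective
      refine LinearMap.ext fun u => LinearMap.ext fun w => ?_
      simp only [map_add, LinearMap.add_apply, tt_apply]
      ring
    have e2 := h3 (c + d)
    rw [e1, map_add, map_add, map_add, h3, h3, zero_add, zero_add] at e2
    exact e2
  ext β
  rw [h1, LinearMap.zero_apply]
  have e1 : D β.1 = ∑ i, ∑ j, ap p L β.1 ((bs p L).coord i) ((bs p L).coord j) *
      D (tt p L (bs p L i) (bs p L j)) := by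
    conv_lhs => rw [expand p L β.1]
    simp only [map_sum, map_smul, smul_eq_mul]
  have e2 : D β.1 = ∑ i, ∑ j, ap p L β.1 ((bs p L).coord i) ((bs p L).coord j) *
      D (tt p L (bs p L j) (bs p L i)) := by
    rw [e1, Finset.sum_comm]
    refine Finset.sum_congr rfl fun i _ => Finset.sum_congr rfl fun j _ => ?_
    rw [β.2.1]
  have e3 : D β.1 + D β.1 = 0 := by
    conv_lhs => rw [e1]
    conv_lhs => enter [2]; rw [← e1, e2]
    rw [← Finset.sum_add_distrib]
    refine Finset.sum_eq_zero fun i _ => ?_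
    rw [← Finset.sum_add_distrib]
    refine Finset.sum_eq_zero fun j _ => ?_
    rw [← mul_add, h4, mul_zero]
  have h5 : (2 : ZMod p) ≠ 0 := by
    intro h
    have h3 : ((2 : ℕ) : ZMod p) = 0 := by exact_mod_cast h
    rw [ZMod.natCast_eq_zero_iff] at h3
    exact hp ((Nat.prime_dvd_prime_iff_eq Fact.out Nat.prime_two).1 h3)
  rw [← two_mul] at e3
  exact (mul_eq_zero.1 e3).resolve_left h5

/-- The homomorphism given by two linear maps. -/
noncomputable def hm (φ : Dl p L →ₗ[ZMod p] ZMod p) (ψ : Module.Dual (ZMod p) (NN p L) →ₗ[ZMod p] ZMod p) :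
    AA p L →+ Rp p :=
  (LinearMap.prodMap φ ψ).toAddMonoidHom

theorem hm_apply (φ : Dl p L →ₗ[ZMod p] ZMod p)
    (ψ : Module.Dual (ZMod p) (NN p L) →ₗ[ZMod p] ZMod p) (x : AA p L) :
    hm p L φ ψ x = ((φ x.1, ψ x.2) : ZMod p × ZMod p) := rfl

/-- The points of `A_e` are separated by homomorphisms to `R`. -/
theorem separated (hp : p ≠ 2) {e : L} (he : e ≠ 0) {x : AA p L} (hx0 : x ≠ 0) :
    ∃ f : AA p L →+ Rp p, (∀ y ∈ Ae p L e, ∀ z ∈ Ae p L e, f (y * z) = f y * f z) ∧ f x ≠ 0 := by
  have key : ∀ c : L, ∃ f : AA p L →+ Rp p,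
      (∀ y ∈ Ae p L e, ∀ z ∈ Ae p L e, f (y * z) = f y * f z) ∧
      ∀ y, f y = ((y.1 c, y.2 ⟨bc p L e c, bc_mem p L hp he c⟩) : ZMod p × ZMod p) := by
    intro c
    refine ⟨hm p L (Module.Dual.eval (ZMod p) L c)
      (Module.Dual.eval (ZMod p) _ ⟨bc p L e c, bc_mem p L hp he c⟩), ?_, fun y => rfl⟩
    intro y hy z hz
    refine Prod.ext rfl ?_
    show ap p L (bc p L e c) y.1 z.1 = y.1 c * z.1 c
    exact bc_apply p L c hy hz
  by_cases h1 : x.1 = 0
  · have h2 : x.2 ≠ 0 := fun h2 => hx0 (Prod.ext h1 h2)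
    by_cases hS : x.2 ∈ SS p L e
    · by_contra hne
      apply h2
      refine eq_zero_of_mem_SS p L hp he hS fun c => ?_
      obtain ⟨f, hf, hf'⟩ := key c
      by_contra hc
      refine hne ⟨f, hf, fun h0 => hc ?_⟩
      have := hf' x
      rw [h0] at this
      exact (congrArg Prod.snd this).symm
    · obtain ⟨ψ, hψ, hψS⟩ := Submodule.exists_le_ker_of_notMem hS
      refine ⟨hm p L 0 ψ, ?_, ?_⟩
      · intro y hy z hz
        refine Prod.ext rfl ?_
        show ψ (pr p L y.1 z.1) = 0 * 0
        rw [mul_zero]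
        exact hψS (Submodule.subset_span ⟨y.1, z.1, hy, hz, rfl⟩)
      · intro h0
        exact hψ (congrArg Prod.snd h0)
  · obtain ⟨c, hc⟩ : ∃ c, x.1 c ≠ 0 := by
      by_contra hne
      push Not at hne
      exact h1 (LinearMap.ext hne)
    obtain ⟨f, hf, hf'⟩ := key c
    refine ⟨f, hf, fun h0 => hc ?_⟩
    have := hf' x
    rw [h0] at this
    exact (congrArg Prod.fst this).symm

/-- The element `(u,v)` of `A`. -/
noncomputable def mk (u : Dl p L) (v : Module.Dual (ZMod p) (NN p L)) : AA p L := (u, v)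

/-- Every homomorphism from `A` to `R` kills the products of elements of `U`. -/
theorem kills (f : AA p L → Rp p) (hadd : ∀ x y, f (x + y) = f x + f y)
    (hmul : ∀ x y, f (x * y) = f x * f y) (u : Dl p L) : f (mk p L 0 (pr p L u u)) = 0 := by
  let φ : Dl p L →ₗ[ZMod p] ZMod p := AddMonoidHom.toZModLinearMap p
    (AddMonoidHom.mk' (fun u : Dl p L => (f (mk p L u 0)).1) (by
      intro a b
      have h1 : mk p L (a + b) 0 = mk p L a 0 + mk p L b 0 := Prod.ext rfl (add_zero _).symm
      rw [h1, hadd]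
      rfl))
  let ψ : Module.Dual (ZMod p) (NN p L) →ₗ[ZMod p] ZMod p := AddMonoidHom.toZModLinearMap p
    (AddMonoidHom.mk' (fun v : Module.Dual (ZMod p) (NN p L) => (f (mk p L 0 v)).2) (by
      intro a b
      have h1 : mk p L 0 (a + b) = mk p L 0 a + mk p L 0 b := Prod.ext (add_zero _).symm rfl
      rw [h1, hadd]
      rfl))
  have h1 : ∀ u w, ψ (pr p L u w) = φ u * φ w := by
    intro u w
    exact congrArg Prod.snd (hmul (mk p L u 0) (mk p L w 0))
  obtain ⟨β, hβ⟩ := (Module.evalEquiv (ZMod p) (NN p L)).surjective ψ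
  have h2 : ∀ u w, ap p L β.1 u w = φ u * φ w := by
    intro u w
    rw [← h1, ← hβ]
    rfl
  have h3 : (∑ i, φ ((bs p L).coord i) • bs p L i) * (∑ i, φ ((bs p L).coord i) • bs p L i) = 0 := by
    rw [← β.2.2, Finset.sum_mul_sum]
    refine Finset.sum_congr rfl fun i _ => Finset.sum_congr rfl fun j _ => ?_
    rw [smul_mul_smul_comm, h2]
  have h4 : ∑ i, φ ((bs p L).coord i) • bs p L i = 0 := mul_self_eq_zero.1 h3
  have h5 := Fintype.linearIndependent_iff.1 (bs p L).linearIndependent _ h4
  have h6 : φ u = 0 := by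
    rw [← (bs p L).sum_dual_apply_smul_coord u, map_sum]
    refine Finset.sum_eq_zero fun i _ => ?_
    rw [map_smul, h5, smul_zero]
  have h7 := hmul (mk p L u 0) (mk p L u 0)
  refine Eq.trans h7 (Prod.ext rfl ?_)
  show φ u * φ u = 0
  rw [h6, mul_zero]

/-- Some product in `A` is not zero. -/
theorem exists_pr_ne (hp : p ≠ 2) (hL : 1 < Module.finrank (ZMod p) L) :
    ∃ u : Dl p L, pr p L u u ≠ 0 := by
  have h1 : (1 : L) ≠ 0 := one_ne_zero
  obtain ⟨c, hc⟩ : ∃ c : L, c ∉ Submodule.span (ZMod p) {(1 : L)} := by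
    by_contra hne
    push Not at hne
    have h2 : Submodule.span (ZMod p) {(1 : L)} = ⊤ := eq_top_iff.2 fun c _ => hne c
    have h3 := finrank_span_singleton (K := ZMod p) h1
    rw [h2, finrank_top] at h3
    omega
  obtain ⟨u, hu, hu1⟩ := Submodule.exists_le_ker_of_notMem hc
  refine ⟨u, fun h0 => hu ?_⟩
  have h2 : u 1 = 0 := hu1 (Submodule.subset_span rfl)
  have h3 := LinearMap.congr_fun h0 ⟨bc p L 1 c, bc_mem p L hp h1 c⟩
  have h4 : ap p L (bc p L 1 c) u u = 0 := h3
  rw [bc_apply p L c h2 h2] at h4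
  exact mul_self_eq_zero.1 h4

/-- Fewer than `dim L` elements of `A` lie in one of the subrings `A_e`. -/
theorem exists_e {n : ℕ} (hn : n < Module.finrank (ZMod p) L) (v : ℕ → AA p L) :
    ∃ e : L, e ≠ 0 ∧ ∀ i < n, v i ∈ Ae p L e := by
  let T : L →ₗ[ZMod p] (Fin n → ZMod p) := LinearMap.pi fun i => (v i).1
  have hT : T.ker ≠ ⊥ := LinearMap.ker_ne_bot_of_finrank_lt (by simpa using hn)
  obtain ⟨e, he, he0⟩ := Submodule.exists_mem_ne_zero_of_ne_bot hT
  refine ⟨e, he0, fun i hi => ?_⟩
  exact congrFun (LinearMap.mem_ker.1 he) ⟨i, hi⟩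

end Main

theorem mul_Rp (p : ℕ) [Fact p.Prime] (x y : Rp p) :
    x * y = ((0, x.1 * y.1) : ZMod p × ZMod p) := rfl

instance (p : ℕ) [Fact p.Prime] : NonUnitalCommRing (Rp p) :=
  { (inferInstance : NonUnitalNonAssocRing (Rp p)) with
    mul_assoc := fun x y z => by
      rw [mul_Rp, mul_Rp, mul_Rp, mul_Rp]
      refine Prod.ext rfl ?_
      show 0 * z.1 = x.1 * 0
      rw [zero_mul, mul_zero]
    mul_comm := fun x y => by
      rw [mul_Rp, mul_Rp, mul_comm] }

/-- The ring `R` has no finite basis of quasi-identities. -/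
theorem not_hasFiniteBasis (p : ℕ) [Fact p.Prime] (hp : p ≠ 2) : ¬ HasFiniteBasis (Rp p) := by
  rintro ⟨S, hS, hSR, hB⟩
  obtain ⟨n, hn⟩ := exists_below hS
  let L := GaloisField p (n + 2)
  have hL : Module.finrank (ZMod p) L = n + 2 := GaloisField.finrank p (by omega)
  have hfinL : Finite L := Module.finite_of_finite (ZMod p)
  have hfin1 : Finite (Dl p L) := Module.finite_of_finite (ZMod p)
  have hfin2 : Finite (Module.Dual (ZMod p) (NN p L)) := Module.finite_of_finite (ZMod p)
  obtain ⟨u, hu⟩ := exists_pr_ne p L hp (by omega)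
  have hd : mk p L 0 (pr p L u u) ≠ 0 := fun h0 => hu (congrArg Prod.snd h0)
  obtain ⟨q, hqR, hqA⟩ := exists_quasiIdentity (R := Rp p) hd fun f h1 h2 => kills p L f h1 h2 u
  refine hqA (hB q hqR (AA p L) fun s hs => ?_)
  refine holds_of_separated (hn s hs) (hSR s hs) fun v => ?_
  obtain ⟨e, he, hv⟩ := exists_e p L (n := n) (by omega) v
  exact ⟨Ae p L e, hv, fun x _ hx0 => separated p L hp he hx0⟩

/-- `A` is an alternative ring. -/
def IsAlternative (A : Type*) [NonUnitalNonAssocRing A] : Prop :=
  ∀ x y : A, (x * x) * y = x * (x * y) ∧ (y * x) * x = y * (x * x)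

/-- `A` is a Jordan ring. -/
def IsJordanRing (A : Type*) [NonUnitalNonAssocRing A] : Prop :=
  ∀ x y : A, x * y = y * x ∧ ((x * x) * y) * x = (x * x) * (y * x)

/-- **Finite alternative and Jordan rings without finite bases of quasi-identities.**
For every odd prime number `p` there is a commutative associative ring `R` with `p²` elements and
with `x y z = 0` for all `x, y, z` which has no finite basis of quasi-identities. As a commutative
associative ring, `R` is both an alternative ring and a Jordan ring. -/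
theorem result (p : ℕ) (hp : p.Prime) (hp2 : p ≠ 2) :
    ∃ (R : Type) (_ : NonUnitalCommRing R), Nat.card R = p ^ 2 ∧ (∀ x y z : R, x * y * z = 0) ∧
      IsAlternative R ∧ IsJordanRing R ∧ ¬ HasFiniteBasis R := by
  have : Fact p.Prime := ⟨hp⟩
  refine ⟨Rp p, inferInstance, ?_, ?_, ?_, ?_, not_hasFiniteBasis p hp2⟩
  · show Nat.card (ZMod p × ZMod p) = p ^ 2
    rw [Nat.card_prod, Nat.card_zmod, sq]
  · intro x y z
    rw [mul_Rp, mul_Rp]
    refine Prod.ext rfl ?_
    show 0 * z.1 = 0
    rw [zero_mul]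
  · intro x y
    exact ⟨mul_assoc x x y, mul_assoc y x x⟩
  · intro x y
    exact ⟨mul_comm x y, mul_assoc (x * x) y x⟩

end Pool.Agent.Results.MP_db5ef1_al.NoFiniteBasis
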